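import Mathlib
import Pool.Agent.TH194.BL.FinW2

/-!
Project SP (helper194): the sieve engine of project BL, separated from the equation.
-/

set_option autoImplicit false

namespace Pool.Agent.TH194.SP

open Finset Filter Pool.Agent.TH194.BL

theorem ev_lam {ε : ℝ} (h0 : 0 < ε) (h1 : ε ≤ 1 / 8) : ∀ᶠ L : ℝ in atTop,
    (L ^ (1 - ε / 2) + 1) * (2 * Real.log L) ≤ L ^ (1 - ε / 4) := by
  have g1 : ∀ᶠ L : ℝ in atTop, 4 * Real.log L ≤ L ^ (ε / 4) := by
    have h := isLittleO_log_rpow_atTop (r := ε / 4) (by linarith)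
    have h2 := h.bound (show (0 : ℝ) < 1 / 4 by norm_num)
    filter_upwards [h2, eventually_ge_atTop (1 : ℝ)] with L hL hL1
    rw [Real.norm_of_nonneg (Real.log_nonneg hL1), Real.norm_of_nonneg (by positivity)] at hL
    linarith
  have g2 : ∀ᶠ L : ℝ in atTop, 1 ≤ L ^ (1 - ε / 2) :=
    (tendsto_rpow_atTop (by linarith)).eventually_ge_atTop 1
  filter_upwards [g1, g2, eventually_ge_atTop (1 : ℝ)] with L hL hL2 hL1
  have hlog := Real.log_nonneg hL1
  calc (L ^ (1 - ε / 2) + 1) * (2 * Real.log L) ≤ (2 * L ^ (1 - ε / 2)) * (2 * Real.log L) := by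
        apply mul_le_mul_of_nonneg_right _ (by linarith)
        linarith
    _ = L ^ (1 - ε / 2) * (4 * Real.log L) := by ring
    _ ≤ L ^ (1 - ε / 2) * L ^ (ε / 4) := by gcongr
    _ = L ^ (1 - ε / 4) := by
        rw [← Real.rpow_add (by linarith)]
        congr 1
        ring

open Classical in
/-- **The engine.** For all large `N` there are primes `t` in `P`, all at least `log N`, with
`t - 1` dividing a number `lam ≤ exp ((log N)^(1 - ε / 4))`, such that every set of points of a cube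
of side `N` in dimension `k` which for all but `log N` of the `t` in `P` avoids a proportion `η` of
the residue classes modulo `t` has at most `N ^ (k - 1 / 4 + ε / 2)` elements. -/
theorem engine (k : ℕ) {η ε : ℝ} (hη : 0 < η) (h0 : 0 < ε) (h1 : ε ≤ 1 / 8) :
    ∃ N₀ : ℕ, ∀ N : ℕ, N₀ ≤ N → ∃ (P : Finset ℕ) (lam : ℕ), 0 < lam ∧
      (lam : ℝ) ≤ Real.exp (Real.log N ^ (1 - ε / 4)) ∧
      (∀ t ∈ P, t.Prime ∧ t - 1 ∣ lam ∧ Real.log N ≤ t) ∧
      ∀ (a : Fin k → ℕ) (Z : Finset (Fin k → ℕ)) (P' : Finset ℕ)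
        (Om : (t : ℕ) → Finset (Fin k → ZMod t)), P' ⊆ P →
        ((P \ P').card : ℝ) ≤ Real.log N → (∀ z ∈ Z, z ∈ Cube a N) →
        (∀ t ∈ P', ((Om t).card : ℝ) ≤ (1 - η) * (t : ℝ) ^ k) →
        (∀ z ∈ Z, ∀ t ∈ P', (fun i => ((z i : ℕ) : ZMod t)) ∈ Om t) →
        (Z.card : ℝ) ≤ (N : ℝ) ^ ((k : ℝ) - 1 / 4 + ε / 2) := by
  obtain ⟨M, hM⟩ : ∃ M : ℕ, (1 / 2 : ℝ) ^ (M + 1) ≤ η := by
    obtain ⟨M, hM⟩ := exists_pow_lt_of_lt_one hη (show (1 / 2 : ℝ) < 1 by norm_num)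
    exact ⟨M, (pow_le_pow_of_le_one (by norm_num) (by norm_num) (Nat.le_succ M)).trans hM.le⟩
  obtain ⟨T₀, hT₀⟩ := ssp (1 / 2 + ε / 16) (ε / 16) (by linarith) (by linarith) (by linarith) 1
  have hev := (Real.tendsto_log_atTop.comp tendsto_natCast_atTop_atTop).eventually
    (((ev_par k 1 h0 h1 (max T₀ 2)).and (W.ev_parW M h0 h1)).and (ev_lam h0 h1))
  obtain ⟨N₀, hN₀⟩ := eventually_atTop.1 hev
  refine ⟨max N₀ 1, fun N hN => ?_⟩
  have hN1 : 1 ≤ N := (le_max_right _ _).trans hN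
  obtain ⟨⟨hp, hw⟩, hlamL⟩ : (Par k 1 ε (max T₀ 2) (Real.log N) ∧ W.ParW M ε (Real.log N)) ∧
      (Real.log N ^ (1 - ε / 2) + 1) * (2 * Real.log (Real.log N)) ≤
        Real.log N ^ (1 - ε / 4) :=
    hN₀ N ((le_max_left _ _).trans hN)
  set L := Real.log N with hL
  have hNR : (0 : ℝ) < N := by exact_mod_cast hN1
  have hNexp : (N : ℝ) = Real.exp L := (Real.exp_log hNR).symm
  have hL0 : 0 < L := by linarith [hp.l1]
  have hll : 0 < Real.log L := by linarith [hp.ll]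
  have hal := al_ge h0 h1
  have hal2 := al_le h0
  set T := ⌊L ^ al ε⌋₊ with hT
  have hTR : (T : ℝ) ≤ L ^ al ε := Nat.floor_le (by positivity)
  have hT2 : 2 ≤ T := (le_max_right _ _).trans hp.t0
  have hT0 : (0 : ℝ) < T := by exact_mod_cast (by omega : 0 < T)
  have hlogT : Real.log T ≤ al ε * Real.log L := by
    have := Real.log_le_log hT0 hTR
    rwa [Real.log_rpow hL0] at this
  have hlogL : Real.log L ≤ Real.log T := Real.log_le_log hL0 hp.tL
  -- primes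
  set P₀ := (Icc 1 T).filter (fun t : ℕ => t.Prime ∧ t % 4 = 3 ∧ 2 ∣ t - 1 ∧
    ∀ p : ℕ, p.Prime → p ∣ t - 1 → (p : ℝ) ≤ (T : ℝ) ^ (1 / 2 + ε / 16)) with hP₀
  have hP₀c : (T : ℝ) ^ (1 - ε / 16) ≤ (P₀.card : ℝ) := by
    have h := hT₀ T ((le_max_left _ _).trans hp.t0) 2 Nat.prime_two
      (by rw [pow_one]; push_cast; linarith [hw.ll2])
    refine h.trans (le_of_eq ?_)
    rw [hP₀]
  set P := P₀.filter (fun t : ℕ => L ≤ t) with hP
  have hPc : L ^ (al ε * (1 - ε / 8)) / 2 ≤ (P.card : ℝ) + L := by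
    have c1 : P₀.card ≤ P.card + ⌊L⌋₊ := by
      have : P₀ ⊆ P ∪ Icc 1 ⌊L⌋₊ := by
        intro t ht
        rw [mem_union, hP, mem_filter, mem_Icc]
        have h1 : 1 ≤ t := by
          rw [hP₀, mem_filter, mem_Icc] at ht
          exact ht.1.1
        rcases le_total L t with h | h
        · left; exact ⟨ht, h⟩
        · right; exact ⟨h1, Nat.le_floor h⟩
      calc P₀.card ≤ (P ∪ Icc 1 ⌊L⌋₊).card := card_le_card this
        _ ≤ P.card + (Icc 1 ⌊L⌋₊).card := card_union_le _ _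
        _ = _ := by rw [Nat.card_Icc, Nat.add_sub_cancel]
    have c2 : (P₀.card : ℝ) ≤ P.card + (⌊L⌋₊ : ℝ) := by exact_mod_cast c1
    have c5 : (⌊L⌋₊ : ℝ) ≤ L := Nat.floor_le hL0.le
    have c3 : (T : ℝ) ^ (1 - ε / 8) ≤ (T : ℝ) ^ (1 - ε / 16) :=
      Real.rpow_le_rpow_of_exponent_le (by exact_mod_cast (by omega : 1 ≤ T)) (by linarith)
    have c4 : L ^ (al ε * (1 - ε / 8)) / 2 ≤ (T : ℝ) ^ (1 - ε / 8) := by
      have d1 : (L ^ al ε / 2) ^ (1 - ε / 8) ≤ (T : ℝ) ^ (1 - ε / 8) :=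
        Real.rpow_le_rpow (by positivity) hp.tl (by linarith)
      have d2 : (L ^ al ε / 2) ^ (1 - ε / 8) = L ^ (al ε * (1 - ε / 8)) / 2 ^ (1 - ε / 8) := by
        rw [Real.div_rpow (by positivity) (by norm_num), ← Real.rpow_mul hL0.le]
      have d3 : (2 : ℝ) ^ (1 - ε / 8) ≤ 2 := by
        calc (2 : ℝ) ^ (1 - ε / 8) ≤ 2 ^ (1 : ℝ) :=
              Real.rpow_le_rpow_of_exponent_le (by norm_num) (by linarith)
          _ = 2 := Real.rpow_one 2
      calc L ^ (al ε * (1 - ε / 8)) / 2 ≤ L ^ (al ε * (1 - ε / 8)) / 2 ^ (1 - ε / 8) := by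
            gcongr
        _ = _ := d2.symm
        _ ≤ _ := d1
    linarith
  have hPmem : ∀ t ∈ P, t ≤ T ∧ t.Prime ∧ t % 4 = 3 ∧
      (∀ p : ℕ, p.Prime → p ∣ t - 1 → (p : ℝ) ≤ (T : ℝ) ^ (1 / 2 + ε / 16)) ∧
      L ≤ t := by
    intro t ht
    rw [hP, mem_filter, hP₀, mem_filter, mem_Icc] at ht
    exact ⟨ht.1.1.2, ht.1.2.1, ht.1.2.2.1, ht.1.2.2.2.2, ht.2⟩
  -- small primes
  set Y' := L ^ (1 - ε / 2) with hY'
  set S := (Icc 1 ⌊Y'⌋₊).filter (fun p : ℕ => p.Prime) with hS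
  have hY'0 : 0 < Y' := by linarith [hp.y2]
  have hSc : (S.card : ℝ) ≤ Y' := by
    calc (S.card : ℝ) ≤ ((Icc 1 ⌊Y'⌋₊).card : ℝ) := by exact_mod_cast card_filter_le _ _
      _ = (⌊Y'⌋₊ : ℝ) := by rw [Nat.card_Icc, Nat.add_sub_cancel]
      _ ≤ Y' := Nat.floor_le hY'0.le
  have hSp : ∀ p ∈ S, p.Prime := fun p hp' => (mem_filter.1 hp').2
  have hSmem : ∀ p : ℕ, p.Prime → (p : ℝ) ≤ Y' → p ∈ S := by
    intro p hpp hpY
    rw [hS, mem_filter, mem_Icc]
    exact ⟨⟨hpp.one_le, Nat.le_floor hpY⟩, hpp⟩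
  have hTth : (T : ℝ) ^ (1 / 2 + ε / 16) ≤ Y' := by
    calc (T : ℝ) ^ (1 / 2 + ε / 16) ≤ (L ^ al ε) ^ (1 / 2 + ε / 16) :=
          Real.rpow_le_rpow hT0.le hTR (by linarith)
      _ = L ^ (al ε * (1 / 2 + ε / 16)) := by rw [← Real.rpow_mul hL0.le]
      _ = Y' := by rw [al_mul h0]
  -- j and Q
  set Q := Nat.sqrt N with hQ
  have hQ2 : Q ^ 2 ≤ N := by rw [sq]; exact Nat.sqrt_le N
  have hQ1 : 1 ≤ Q := by
    rw [hQ, Nat.le_sqrt]
    omega
  set j := Nat.log T Q with hj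
  have hTj : T ^ j ≤ Q := Nat.pow_log_le_self T (by omega)
  have hTj2 : Q < T ^ (j + 1) := Nat.lt_pow_succ_log_self (by omega) Q
  have hNQ : N < (Q + 1) ^ 2 := by rw [sq]; exact Nat.lt_succ_sqrt N
  have hlT : 1 ≤ Real.log T := by linarith [hp.ll]
  have hj1 : (j : ℝ) ≤ L := by
    have a1 : (T : ℝ) ^ j ≤ Q := by exact_mod_cast hTj
    have a2 := Real.log_le_log (by positivity) a1
    rw [Real.log_pow] at a2
    have a3 : Real.log Q ≤ L := by
      apply Real.log_le_log (by exact_mod_cast hQ1)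
      have : Q ≤ Q ^ 2 := Nat.le_self_pow (by norm_num) Q
      exact_mod_cast this.trans hQ2
    have a4 : (j : ℝ) * 1 ≤ j * Real.log T := by gcongr
    linarith
  have hj2 : L / 2 ≤ (j + 1) * (al ε * Real.log L) := by
    have a1 : N < (T ^ (j + 1)) ^ 2 := lt_of_lt_of_le hNQ (Nat.pow_le_pow_left hTj2 2)
    have a2 : (N : ℝ) ≤ ((T : ℝ) ^ (j + 1)) ^ 2 := by exact_mod_cast a1.le
    have a3 := Real.log_le_log hNR a2
    rw [← pow_mul, Real.log_pow, ← hL] at a3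
    push_cast at a3
    have a4 : ((j : ℝ) + 1) * 2 * Real.log T ≤ (j + 1) * 2 * (al ε * Real.log L) := by gcongr
    linarith
  have hlam0 : (0 : ℝ) < lamOf S T := by exact_mod_cast lamOf_pos hSp
  refine ⟨P, lamOf S T, lamOf_pos hSp, ?_, ?_, ?_⟩
  · rw [← Real.log_le_iff_le_exp hlam0]
    have c1 := Real.log_le_log hlam0 (lamOf_le (S := S) hT2)
    rw [Real.log_pow] at c1
    push_cast at c1
    have c2 : Real.log T ≤ 2 * Real.log L := by
      refine hlogT.trans ?_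
      gcongr
    calc Real.log (lamOf S T) ≤ _ := c1
      _ ≤ (Y' + 1) * (2 * Real.log L) := by
          apply mul_le_mul (by linarith) c2 (by linarith) (by linarith)
      _ ≤ _ := hlamL
  · intro t ht
    exact ⟨(hPmem t ht).2.1, dvd_lamOf (hPmem t ht).1 (hPmem t ht).2.2.1
      (fun p hpp hpt => hSmem p hpp (((hPmem t ht).2.2.2.1 p hpp hpt).trans hTth)),
      (hPmem t ht).2.2.2.2⟩
  · intro a Z P' Om hP'P hdiff hZ hOm hZO
    set Bd : ℝ := Real.exp ((1 / 4 - 3 * ε / 8) * L) with hBd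
    have hcard : L ^ (al ε * (1 - ε / 8)) / 4 ≤ (P'.card : ℝ) := by
      have e1 : (P \ P').card + P'.card = P.card := card_sdiff_add_card_eq_card hP'P
      have e2 : ((P \ P').card : ℝ) + P'.card = P.card := by exact_mod_cast e1
      have e3 := hw.f6
      linarith
    have hb := W.sieve_sumG h0 h1 hp hw hcard hj1 hj2
    have hl := G.lskG (η := (1 / 2) ^ (M + 1)) (by positivity) k N Q j a P' Z Om hN1 hQ2
      (fun t ht => (hPmem t (hP'P ht)).2.1)
      (by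
        intro z hz l
        have := hZ z hz
        rw [Cube, Fintype.mem_piFinset] at this
        exact this l)
      (by
        intro t ht
        refine (hOm t ht).trans ?_
        apply mul_le_mul_of_nonneg_right _ (by positivity)
        linarith)
      hZO
      (by
        intro D hD
        rw [mem_powersetCard] at hD
        calc ∏ t ∈ D, t ≤ ∏ t ∈ D, T := prod_le_prod' (fun t ht => (hPmem t (hP'P (hD.1 ht))).1)
          _ = T ^ j := by rw [prod_const, hD.2]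
          _ ≤ Q := hTj)
    have hBd0 : 0 < Bd := Real.exp_pos _
    have h3 : (Z.card : ℝ) ≤ (12 * (N : ℝ)) ^ k / Bd := by
      rw [le_div_iff₀ hBd0]
      exact (mul_le_mul_of_nonneg_left hb (Nat.cast_nonneg _)).trans hl
    refine h3.trans ?_
    have n2 : (12 * (N : ℝ)) ^ k / Bd ≤
        Real.exp ((ε / 8 + k) * L - (1 / 4 - 3 * ε / 8) * L) := by
      rw [sub_eq_add_neg, Real.exp_add, Real.exp_neg, ← div_eq_mul_inv]
      have c1 : (12 * (N : ℝ)) ^ k ≤ Real.exp ((ε / 8 + k) * L) := by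
        rw [mul_pow, add_mul, Real.exp_add]
        apply mul_le_mul _ _ (by positivity) (by positivity)
        · rw [← Real.log_le_iff_le_exp (by positivity), Real.log_pow]
          exact hp.e9
        · rw [hNexp, Real.exp_nat_mul]
      exact div_le_div_of_nonneg_right c1 (Real.exp_pos _).le
    refine n2.trans (le_of_eq ?_)
    rw [Real.rpow_def_of_pos hNR]
    congr 1
    ring

end Pool.Agent.TH194.SP
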