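import Pool.Agent.TH194.SP.Loc

/-!
Project SP (helper194): the local count for a sum of `M` products with independent bases.
-/

set_option autoImplicit false

namespace Pool.Agent.TH194.SP

open Finset

theorem card_coord {M t : ℕ} [NeZero t] (i : Fin M) (a : ZMod t) :
    ((univ : Finset (Fin M → ZMod t)).filter (fun b => b i = a)).card = t ^ (M - 1) := by
  classical
  have h1 : (univ : Finset (Fin M → ZMod t)).filter (fun b => b i = a) =
      Fintype.piFinset (fun k : Fin M => if k = i then {a} else univ) := by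
    ext b
    rw [mem_filter, Fintype.mem_piFinset]
    constructor
    · rintro ⟨-, h⟩ k
      split_ifs with hk
      · rw [hk, h]; exact mem_singleton_self a
      · exact mem_univ _
    · intro h
      have := h i
      rw [if_pos rfl, mem_singleton] at this
      exact ⟨mem_univ _, this⟩
  rw [h1, Fintype.card_piFinset, ← mul_prod_erase univ _ (mem_univ i), if_pos rfl,
    card_singleton, one_mul]
  have h2 : ∏ k ∈ univ.erase i, (if k = i then ({a} : Finset (ZMod t)) else univ).card =
      ∏ k ∈ (univ : Finset (Fin M)).erase i, t := by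
    apply prod_congr rfl
    intro k hk
    rw [if_neg (mem_erase.1 hk).1, card_univ, ZMod.card]
  rw [h2, prod_const, card_erase_of_mem (mem_univ i), card_univ, Fintype.card_fin]

open Classical in
theorem loc_M (t M S : ℕ) [Fact t.Prime] (hS : 16 * S ^ 2 ≤ t) (hMS : 8 * (M * S) ≤ t)
    (h : Fin S → ZMod t) (hinj : Function.Injective h) (e : Fin M → Fin S → ℕ)
    (c : Fin M → ZMod t) (hc : ∀ i, c i ≠ 0) (hsum : ∑ i, c i ≠ 0) :
    (((univ : Finset (Fin M → ZMod t)).filter (fun b => (∃ i j, b i + h j = 0) ∨
      ∑ i, c i * ∏ j, (b i + h j) ^ e i j = 0)).card : ℝ) ≤ 3 / 4 * (t : ℝ) ^ M := by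
  have htp : t.Prime := Fact.out
  have : NeZero t := ⟨htp.ne_zero⟩
  have ht0 : (0 : ℝ) < t := by exact_mod_cast htp.pos
  -- there is at least one term
  have hM : 0 < M := by
    rcases Nat.eq_zero_or_pos M with h0 | h0
    · subst h0
      exact absurd (by simp) hsum
    · exact h0
  have hpow : (t : ℝ) ^ (M - 1) * t = (t : ℝ) ^ M := by
    rw [← pow_succ, Nat.sub_add_cancel hM]
  set B₁ := (univ : Finset (Fin M → ZMod t)).filter (fun b => ∃ i j, b i + h j = 0) with hB₁
  set B₂ := (univ : Finset (Fin M → ZMod t)).filter (fun b => (∀ i j, b i + h j ≠ 0) ∧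
      ∑ i, c i * ∏ j, (b i + h j) ^ e i j = 0) with hB₂
  have hsub : (univ : Finset (Fin M → ZMod t)).filter (fun b => (∃ i j, b i + h j = 0) ∨
      ∑ i, c i * ∏ j, (b i + h j) ^ e i j = 0) ⊆ B₁ ∪ B₂ := by
    intro b hb
    rw [mem_filter] at hb
    rw [mem_union, hB₁, hB₂, mem_filter, mem_filter]
    by_cases h1 : ∃ i j, b i + h j = 0
    · left; exact ⟨mem_univ _, h1⟩
    · right
      refine ⟨mem_univ _, ?_, ?_⟩
      · push Not at h1; exact h1
      · rcases hb.2 with h2 | h2
        · exact absurd h2 h1
        · exact h2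
  have hc1 : (B₁.card : ℝ) ≤ 1 / 8 * (t : ℝ) ^ M := by
    have h1 : B₁ ⊆ (univ : Finset (Fin M × Fin S)).biUnion (fun p =>
        (univ : Finset (Fin M → ZMod t)).filter (fun b => b p.1 = - h p.2)) := by
      intro b hb
      rw [hB₁, mem_filter] at hb
      obtain ⟨-, i, j, hij⟩ := hb
      rw [mem_biUnion]
      refine ⟨(i, j), mem_univ _, ?_⟩
      rw [mem_filter]
      exact ⟨mem_univ _, eq_neg_of_add_eq_zero_left hij⟩
    have h2 : B₁.card ≤ M * S * t ^ (M - 1) := by
      calc B₁.card ≤ _ := card_le_card h1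
        _ ≤ ∑ p : Fin M × Fin S, ((univ : Finset (Fin M → ZMod t)).filter
            (fun b => b p.1 = - h p.2)).card := card_biUnion_le
        _ = ∑ p : Fin M × Fin S, t ^ (M - 1) := by
            apply sum_congr rfl
            intro p _
            exact card_coord p.1 _
        _ = M * S * t ^ (M - 1) := by simp
    have h3 : (B₁.card : ℝ) ≤ (M * S : ℕ) * (t : ℝ) ^ (M - 1) := by exact_mod_cast h2
    have h4 : (8 * ((M * S : ℕ) : ℝ)) ≤ t := by exact_mod_cast hMS
    have h5 : (0 : ℝ) ≤ (t : ℝ) ^ (M - 1) := by positivity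
    rw [← hpow]
    nlinarith
  have hc2 : (B₂.card : ℝ) ≤ 5 / 8 * (t : ℝ) ^ M := by
    by_cases hall : ∀ i j, (t - 1) ∣ e i j
    · have : B₂ = ∅ := by
        rw [hB₂, filter_eq_empty_iff]
        rintro b - ⟨h1, h2⟩
        apply hsum
        rw [← h2]
        apply sum_congr rfl
        intro i _
        rw [prod_eq_one, mul_one]
        intro j _
        obtain ⟨q, hq⟩ := hall i j
        rw [hq, pow_mul, ZMod.pow_card_sub_one_eq_one (h1 i j), one_pow]
      rw [this, card_empty]
      push_cast
      positivity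
    · push Not at hall
      obtain ⟨i₀, j₀, hij⟩ := hall
      set π : (Fin M → ZMod t) → (Fin M → ZMod t) := fun b => Function.update b i₀ 0 with hπ
      have h1 : B₂.card = ∑ b' ∈ B₂.image π, (B₂.filter (fun b => π b = b')).card :=
        card_eq_sum_card_image π B₂
      have h2 : ∀ b' ∈ B₂.image π, ((B₂.filter (fun b => π b = b')).card : ℝ) ≤ 5 / 8 * t := by
        intro b' _
        have hl := loc_one t S hS h hinj (e i₀) ⟨j₀, hij⟩
          (-(∑ i ∈ univ.erase i₀, c i * ∏ j, (b' i + h j) ^ e i j) / c i₀)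
        refine le_trans ?_ hl
        have hinj2 : Set.InjOn (fun b : Fin M → ZMod t => b i₀)
            (B₂.filter (fun b => π b = b') : Set (Fin M → ZMod t)) := by
          intro b hb b₂ hb₂ heq
          rw [mem_coe, mem_filter] at hb hb₂
          have h3 : π b = π b₂ := hb.2.trans hb₂.2.symm
          funext k
          by_cases hk : k = i₀
          · rw [hk]; exact heq
          · have := congrFun h3 k
            rw [hπ] at this
            simp only [Function.update_of_ne hk] at this
            exact this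
        have h4 : (B₂.filter (fun b => π b = b')).card ≤
            ((univ : Finset (ZMod t)).filter (fun b => (∀ j, b + h j ≠ 0) ∧
              ∏ j, (b + h j) ^ e i₀ j =
              -(∑ i ∈ univ.erase i₀, c i * ∏ j, (b' i + h j) ^ e i j) / c i₀)).card := by
          rw [← card_image_of_injOn hinj2]
          apply card_le_card
          intro y hy
          rw [mem_image] at hy
          obtain ⟨b, hb, rfl⟩ := hy
          rw [mem_filter, hB₂, mem_filter] at hb
          obtain ⟨⟨-, hb1, hb2⟩, hb3⟩ := hb
          rw [mem_filter]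
          refine ⟨mem_univ _, fun j => hb1 i₀ j, ?_⟩
          rw [eq_div_iff (hc i₀)]
          rw [← add_sum_erase univ _ (mem_univ i₀)] at hb2
          have h5 : ∑ i ∈ univ.erase i₀, c i * ∏ j, (b' i + h j) ^ e i j =
              ∑ i ∈ univ.erase i₀, c i * ∏ j, (b i + h j) ^ e i j := by
            apply sum_congr rfl
            intro i hi
            rw [← hb3, hπ]
            simp only [Function.update_of_ne (mem_erase.1 hi).1]
          rw [h5, mul_comm]
          exact eq_neg_of_add_eq_zero_left hb2
        exact_mod_cast h4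
      have h3 : ((B₂.image π).card : ℝ) ≤ (t : ℝ) ^ (M - 1) := by
        have : B₂.image π ⊆ (univ : Finset (Fin M → ZMod t)).filter (fun b => b i₀ = 0) := by
          intro b hb
          rw [mem_image] at hb
          obtain ⟨b₂, -, rfl⟩ := hb
          rw [mem_filter]
          refine ⟨mem_univ _, ?_⟩
          rw [hπ]
          simp
        have h4 := card_le_card this
        rw [card_coord] at h4
        exact_mod_cast h4
      rw [h1]
      push_cast
      calc ∑ b' ∈ B₂.image π, ((B₂.filter (fun b => π b = b')).card : ℝ) ≤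
            ∑ b' ∈ B₂.image π, (5 / 8 * t : ℝ) := sum_le_sum h2
        _ = (B₂.image π).card * (5 / 8 * t) := by rw [sum_const, nsmul_eq_mul]
        _ ≤ (t : ℝ) ^ (M - 1) * (5 / 8 * t) := by gcongr
        _ = 5 / 8 * (t : ℝ) ^ M := by rw [← hpow]; ring
  calc (((univ : Finset (Fin M → ZMod t)).filter (fun b => (∃ i j, b i + h j = 0) ∨
      ∑ i, c i * ∏ j, (b i + h j) ^ e i j = 0)).card : ℝ) ≤ ((B₁ ∪ B₂).card : ℝ) := by
        exact_mod_cast card_le_card hsub
    _ ≤ (B₁.card : ℝ) + B₂.card := by exact_mod_cast card_union_le _ _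
    _ ≤ 1 / 8 * (t : ℝ) ^ M + 5 / 8 * (t : ℝ) ^ M := add_le_add hc1 hc2
    _ = 3 / 4 * (t : ℝ) ^ M := by ring

end Pool.Agent.TH194.SP
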