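import Mathlib
import Pool.Agent.TH194.SP.Eng
import Pool.Agent.TH194.SP.LocM
import Pool.Agent.TH194.BL.FinW3

/-!
Project SP (helper194): linear equations between products of small spread with random bases.
-/

set_option autoImplicit false

namespace Pool.Agent.TH194.SP

open Finset Filter Pool.Agent.TH194.BL

/-- The exceptional bases: some combination of products `X_i` of integers of `[b_i, b_i + s]`, with
nonzero integral coefficients of absolute value at most `H` and nonzero sum, vanishes. -/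
def ExcS (M s H : ℕ) : Set (Fin M → ℕ) :=
  {b | ∃ (e : Fin M → Fin (s + 1) → ℕ) (c : Fin M → ℤ), (∀ i, c i ≠ 0) ∧ (∀ i, |c i| ≤ H) ∧
    ∑ i, c i ≠ 0 ∧ ∑ i, c i * ∏ j : Fin (s + 1), ((b i + (j : ℕ) : ℕ) : ℤ) ^ e i j = 0}

open Classical in
/-- the local sets -/
noncomputable def OmS (M s : ℕ) (e : Fin M → Fin (s + 1) → ℕ) (c : Fin M → ℤ) (t : ℕ) :
    Finset (Fin M → ZMod t) :=
  if h : t.Prime then
    haveI : Fact t.Prime := ⟨h⟩
    (univ : Finset (Fin M → ZMod t)).filter (fun b =>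
      (∃ i, ∃ j : Fin (s + 1), b i + ((j : ℕ) : ZMod t) = 0) ∨
      ∑ i, (c i : ZMod t) * ∏ j : Fin (s + 1), (b i + ((j : ℕ) : ZMod t)) ^ e i j = 0)
  else ∅

theorem mem_OmS {M s : ℕ} {e : Fin M → Fin (s + 1) → ℕ} {c : Fin M → ℤ} {t : ℕ} (ht : t.Prime)
    (b : Fin M → ZMod t) (h : (∃ i, ∃ j : Fin (s + 1), b i + ((j : ℕ) : ZMod t) = 0) ∨
      ∑ i, (c i : ZMod t) * ∏ j : Fin (s + 1), (b i + ((j : ℕ) : ZMod t)) ^ e i j = 0) :
    b ∈ OmS M s e c t := by
  classical
  unfold OmS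
  rw [dif_pos ht]
  have : Fact t.Prime := ⟨ht⟩
  rw [mem_filter]
  exact ⟨mem_univ _, h⟩

theorem card_OmS {M s : ℕ} {e : Fin M → Fin (s + 1) → ℕ} {c : Fin M → ℤ} {t : ℕ} (ht : t.Prime)
    (h1 : 16 * (s + 1) ^ 2 ≤ t) (h2 : 8 * (M * (s + 1)) ≤ t)
    (hc : ¬ (t : ℤ) ∣ (∏ i, c i) * ∑ i, c i) :
    ((OmS M s e c t).card : ℝ) ≤ (1 - 1 / 4) * (t : ℝ) ^ M := by
  classical
  have : Fact t.Prime := ⟨ht⟩
  have hinj : Function.Injective (fun j : Fin (s + 1) => ((j : ℕ) : ZMod t)) := by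
    intro i j hij
    have h3 : (i : ℕ) < t := by have := i.2; nlinarith
    have h4 : (j : ℕ) < t := by have := j.2; nlinarith
    have h5 := (ZMod.natCast_eq_natCast_iff' _ _ _).1 hij
    rw [Nat.mod_eq_of_lt h3, Nat.mod_eq_of_lt h4] at h5
    exact Fin.ext h5
  have h := loc_M t M (s + 1) h1 h2 (fun j : Fin (s + 1) => ((j : ℕ) : ZMod t)) hinj e
    (fun i => (c i : ZMod t))
    (by
      intro i h0
      apply hc
      have : (t : ℤ) ∣ c i := (ZMod.intCast_zmod_eq_zero_iff_dvd _ t).1 h0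
      exact (this.trans (dvd_prod_of_mem c (mem_univ i))).mul_right _)
    (by
      intro h0
      apply hc
      have : (t : ℤ) ∣ ∑ i, c i := by
        rw [← ZMod.intCast_zmod_eq_zero_iff_dvd]
        push_cast
        exact h0
      exact this.mul_left _)
  refine le_trans (le_of_eq ?_) (h.trans (le_of_eq (by ring)))
  unfold OmS
  rw [dif_pos ht]

/-- the numerical conditions -/
structure ParS (M : ℕ) (ε L : ℝ) : Prop where
  l1 : 1 ≤ L
  a1 : 16 * (L ^ (ε / 16)) ^ 2 ≤ L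
  a2 : 8 * (M * L ^ (ε / 16)) ≤ L
  a3 : Real.log (M + 1) + (M + 1) * L ^ (1 - ε) ≤ L * Real.log 2
  a4 : M * L ^ (ε / 16) * L ^ (1 - ε / 4) + M * (2 + L ^ (1 - ε)) ≤ ε / 8 * L

theorem ev_parS (M : ℕ) {ε : ℝ} (h0 : 0 < ε) (h1 : ε ≤ 1 / 8) :
    ∀ᶠ L : ℝ in atTop, ParS M ε L := by
  have g1 : ∀ᶠ L : ℝ in atTop, 16 ≤ L ^ (1 - ε / 8) :=
    (tendsto_rpow_atTop (by linarith)).eventually_ge_atTop 16
  have g2 : ∀ᶠ L : ℝ in atTop, 8 * (M : ℝ) ≤ L ^ (1 - ε / 16) :=
    (tendsto_rpow_atTop (by linarith)).eventually_ge_atTop _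
  have g3 : ∀ᶠ L : ℝ in atTop, 4 * ((M : ℝ) + 1) ≤ L ^ ε :=
    (tendsto_rpow_atTop h0).eventually_ge_atTop _
  have g4 : ∀ᶠ L : ℝ in atTop, 4 * Real.log (M + 1) ≤ L := eventually_ge_atTop _
  have g5 : ∀ᶠ L : ℝ in atTop, 16 * (M : ℝ) / ε ≤ L ^ (3 * ε / 16) :=
    (tendsto_rpow_atTop (by linarith)).eventually_ge_atTop _
  have g6 : ∀ᶠ L : ℝ in atTop, 32 * (M : ℝ) / ε ≤ L ^ ε :=
    (tendsto_rpow_atTop (by linarith)).eventually_ge_atTop _
  have g7 : ∀ᶠ L : ℝ in atTop, 64 * (M : ℝ) / ε ≤ L := eventually_ge_atTop _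
  filter_upwards [g1, g2, g3, g4, g5, g6, g7, eventually_ge_atTop (1 : ℝ)] with L h1' h2 h3 h4 h5
    h6 h7 h8
  have hL : 0 < L := by linarith
  refine ⟨h8, ?_, ?_, ?_, ?_⟩
  · calc 16 * (L ^ (ε / 16)) ^ 2 ≤ L ^ (1 - ε / 8) * (L ^ (ε / 16)) ^ 2 := by gcongr
      _ = L := by
          rw [← Real.rpow_natCast (L ^ (ε / 16)) 2, ← Real.rpow_mul hL.le, ← Real.rpow_add hL]
          nth_rewrite 2 [← Real.rpow_one L]
          congr 1
          push_cast
          ring
  · calc 8 * (M * L ^ (ε / 16)) = 8 * M * L ^ (ε / 16) := by ring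
      _ ≤ L ^ (1 - ε / 16) * L ^ (ε / 16) := by gcongr
      _ = L := by
          rw [← Real.rpow_add hL]
          nth_rewrite 2 [← Real.rpow_one L]
          congr 1
          ring
  · have e1 : L ^ (1 - ε) * L ^ ε = L := by
      rw [← Real.rpow_add hL, show 1 - ε + ε = 1 by ring, Real.rpow_one]
    have e2 : L ^ (1 - ε) * (4 * ((M : ℝ) + 1)) ≤ L := by
      calc L ^ (1 - ε) * (4 * ((M : ℝ) + 1)) ≤ L ^ (1 - ε) * L ^ ε := by gcongr
        _ = L := e1
    have e3 := Real.log_two_gt_d9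
    nlinarith
  · have e1 : L ^ (1 - ε) * L ^ ε = L := by
      rw [← Real.rpow_add hL, show 1 - ε + ε = 1 by ring, Real.rpow_one]
    have e2 : L ^ (ε / 16) * L ^ (1 - ε / 4) * L ^ (3 * ε / 16) = L := by
      rw [← Real.rpow_add hL, ← Real.rpow_add hL]
      nth_rewrite 2 [← Real.rpow_one L]
      congr 1
      ring
    have e3 : (M : ℝ) * L ^ (ε / 16) * L ^ (1 - ε / 4) ≤ ε / 16 * L := by
      have : L ^ (ε / 16) * L ^ (1 - ε / 4) * (16 * (M : ℝ) / ε) ≤ L := by
        calc L ^ (ε / 16) * L ^ (1 - ε / 4) * (16 * (M : ℝ) / ε) ≤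
            L ^ (ε / 16) * L ^ (1 - ε / 4) * L ^ (3 * ε / 16) := by gcongr
          _ = L := e2
      have h9 : (M : ℝ) * L ^ (ε / 16) * L ^ (1 - ε / 4) =
          ε / 16 * (L ^ (ε / 16) * L ^ (1 - ε / 4) * (16 * (M : ℝ) / ε)) := by
        field_simp
      rw [h9]
      gcongr
    have e4 : (M : ℝ) * L ^ (1 - ε) ≤ ε / 32 * L := by
      have : L ^ (1 - ε) * (32 * (M : ℝ) / ε) ≤ L := by
        calc L ^ (1 - ε) * (32 * (M : ℝ) / ε) ≤ L ^ (1 - ε) * L ^ ε := by gcongr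
          _ = L := e1
      have h9 : (M : ℝ) * L ^ (1 - ε) = ε / 32 * (L ^ (1 - ε) * (32 * (M : ℝ) / ε)) := by
        field_simp
      rw [h9]
      gcongr
    have e5 : (M : ℝ) * 2 ≤ ε / 32 * L := by
      have h9 : (M : ℝ) * 2 = ε / 32 * (64 * (M : ℝ) / ε) := by
        field_simp
        ring
      rw [h9]
      gcongr
    linarith

theorem one_cube (M : ℕ) {ε : ℝ} (h0 : 0 < ε) (h1 : ε ≤ 1 / 8) : ∃ N₀ : ℕ, ∀ N : ℕ, N₀ ≤ N →
    ∀ s : ℕ, ((s + 1 : ℕ) : ℝ) ≤ Real.log N ^ (ε / 16) →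
    ∀ a : Fin M → ℕ, ∀ E : Finset (Fin M → ℕ),
    (∀ b ∈ E, b ∈ Cube a N ∧ b ∈ ExcS M s (W.HH N ε)) →
    (E.card : ℝ) ≤ (N : ℝ) ^ ((M : ℝ) - 1 / 4 + 5 * ε / 8) := by
  classical
  obtain ⟨N₁, hN₁⟩ := engine M (η := 1 / 4) (by norm_num) h0 h1
  have hev := (Real.tendsto_log_atTop.comp tendsto_natCast_atTop_atTop).eventually
    (ev_parS M h0 h1)
  obtain ⟨N₂, hN₂⟩ := eventually_atTop.1 hev
  refine ⟨max (max N₁ N₂) 1, fun N hN s hs a E hE => ?_⟩
  have hN1 : 1 ≤ N := (le_max_right _ _).trans hN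
  have hNN1 : N₁ ≤ N := ((le_max_left _ _).trans (le_max_left _ _)).trans hN
  have hNN2 : N₂ ≤ N := ((le_max_right _ _).trans (le_max_left _ _)).trans hN
  have hp : ParS M ε (Real.log N) := hN₂ N hNN2
  obtain ⟨P, lam, hlam, hlamL, hPt, heng⟩ := hN₁ N hNN1
  set L := Real.log N with hL
  have hL1 := hp.l1
  have hL0 : 0 < L := by linarith
  have hNR : (0 : ℝ) < N := by exact_mod_cast hN1
  set H := W.HH N ε with hH
  have hHle : (H : ℝ) ≤ Real.exp (L ^ (1 - ε)) := Nat.floor_le (Real.exp_pos _).le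
  have : NeZero lam := ⟨hlam.ne'⟩
  set I := (Fin M → Fin (s + 1) → Fin lam) × (Fin M → Fin (2 * H + 1)) with hI
  let co : I → Fin M → ℤ := fun i m => (((i.2 m : Fin (2 * H + 1)) : ℕ) : ℤ) - H
  let good : I → Prop := fun i => (∏ m, co i m) * ∑ m, co i m ≠ 0
  let PI : I → Finset ℕ := fun i => P.filter (fun t : ℕ => ¬ (t : ℤ) ∣ (∏ m, co i m) * ∑ m, co i m)
  let ZI : I → Finset (Fin M → ℕ) := fun i => E.filter (fun A => ∀ t ∈ PI i,
    (fun l => ((A l : ℕ) : ZMod t)) ∈ OmS M s (fun m l => ((i.1 m l : Fin lam) : ℕ)) (co i) t)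
  have hprime : ∀ t ∈ P, t.Prime := fun t ht => (hPt t ht).1
  have hsub : E ⊆ ((univ : Finset I).filter good).biUnion ZI := by
    intro A hA
    obtain ⟨hAc, e, c, hc0, h1, h2, h3⟩ := hE A hA
    rw [mem_biUnion]
    have hcb : ∀ m, (c m + H).toNat < 2 * H + 1 := by
      intro m
      have := abs_le.1 (h1 m)
      omega
    set i : I := (fun m l => ⟨e m l % lam, Nat.mod_lt _ hlam⟩, fun m => ⟨(c m + H).toNat, hcb m⟩)
      with hi
    have hco : co i = c := by
      funext m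
      simp only [co, hi]
      have := abs_le.1 (h1 m)
      omega
    refine ⟨i, ?_, ?_⟩
    · rw [mem_filter]
      refine ⟨mem_univ _, ?_⟩
      show (∏ m, co i m) * ∑ m, co i m ≠ 0
      rw [hco]
      exact mul_ne_zero (prod_ne_zero_iff.2 fun m _ => hc0 m) h2
    · rw [mem_filter]
      refine ⟨hA, fun t ht => ?_⟩
      have ht' : t ∈ P := (mem_filter.1 ht).1
      have htp := hprime t ht'
      have : Fact t.Prime := ⟨htp⟩
      apply mem_OmS htp
      by_cases h0 : ∃ i, ∃ j : Fin (s + 1), ((A i : ℕ) : ZMod t) + ((j : ℕ) : ZMod t) = 0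
      · left; exact h0
      · right
        push Not at h0
        rw [hco]
        have e2 := congrArg (fun z : ℤ => (z : ZMod t)) h3
        simp only [Int.cast_sum, Int.cast_mul, Int.cast_zero] at e2
        rw [← e2]
        apply sum_congr rfl
        intro m _
        congr 1
        rw [Int.cast_prod]
        apply prod_congr rfl
        intro l _
        simp only [hi]
        rw [pow_mod_lam (hPt t ht').2.1 (h0 m l)]
        push_cast
        rfl
  have hZ : ∀ i ∈ (univ : Finset I).filter good,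
      ((ZI i).card : ℝ) ≤ (N : ℝ) ^ ((M : ℝ) - 1 / 4 + ε / 2) := by
    intro i hi
    rw [mem_filter] at hi
    have hg : (∏ m, co i m) * ∑ m, co i m ≠ 0 := hi.2
    have hcom : ∀ m, |co i m| ≤ H := by
      intro m
      simp only [co]
      have := (i.2 m).2
      rw [abs_le]
      constructor <;> omega
    apply heng a (ZI i) (PI i) (OmS M s (fun m l => ((i.1 m l : Fin lam) : ℕ)) (co i))
      (filter_subset _ _)
    · -- few primes are dropped
      have c0 : P \ PI i = P.filter (fun t : ℕ => (t : ℤ) ∣ (∏ m, co i m) * ∑ m, co i m) := by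
        ext t
        simp only [PI, Finset.mem_sdiff, Finset.mem_filter, not_and, not_not]
        constructor
        · rintro ⟨q1, q2⟩; exact ⟨q1, q2 q1⟩
        · rintro ⟨q1, q2⟩; exact ⟨q1, fun _ => q2⟩
      rw [c0]
      have c1 := W.few_dvd hprime hg
      have d5 : (0 : ℝ) < Real.log 2 := Real.log_pos (by norm_num)
      refine le_of_mul_le_mul_right (c1.trans ?_) d5
      have d1 : |(((∏ m, co i m) * ∑ m, co i m : ℤ) : ℝ)| ≤
          (M + 1) * (Real.exp (L ^ (1 - ε))) ^ (M + 1) := by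
        have hR : ∀ m, |(co i m : ℝ)| ≤ Real.exp (L ^ (1 - ε)) := by
          intro m
          have : |(co i m : ℝ)| ≤ (H : ℝ) := by exact_mod_cast hcom m
          exact this.trans hHle
        push_cast
        rw [abs_mul, Finset.abs_prod]
        have f1 : ∏ m, |(co i m : ℝ)| ≤ (Real.exp (L ^ (1 - ε))) ^ M := by
          calc ∏ m, |(co i m : ℝ)| ≤ ∏ m : Fin M, Real.exp (L ^ (1 - ε)) :=
                prod_le_prod (fun m _ => abs_nonneg _) (fun m _ => hR m)
            _ = _ := by rw [prod_const, card_univ, Fintype.card_fin]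
        have f2 : |∑ m, (co i m : ℝ)| ≤ (M + 1) * Real.exp (L ^ (1 - ε)) := by
          calc |∑ m, (co i m : ℝ)| ≤ ∑ m, |(co i m : ℝ)| := abs_sum_le_sum_abs _ _
            _ ≤ ∑ m : Fin M, Real.exp (L ^ (1 - ε)) := sum_le_sum (fun m _ => hR m)
            _ = M * Real.exp (L ^ (1 - ε)) := by
                rw [sum_const, card_univ, Fintype.card_fin, nsmul_eq_mul]
            _ ≤ (M + 1) * Real.exp (L ^ (1 - ε)) := by
                apply mul_le_mul_of_nonneg_right _ (Real.exp_pos _).le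
                linarith
        calc (∏ m, |(co i m : ℝ)|) * |∑ m, (co i m : ℝ)| ≤
              (Real.exp (L ^ (1 - ε))) ^ M * ((M + 1) * Real.exp (L ^ (1 - ε))) :=
            mul_le_mul f1 f2 (abs_nonneg _) (by positivity)
          _ = _ := by ring
      have d3 : 0 < |(((∏ m, co i m) * ∑ m, co i m : ℤ) : ℝ)| := abs_pos.2 (by exact_mod_cast hg)
      have d4 := Real.log_le_log d3 d1
      rw [Real.log_mul (by positivity) (by positivity), Real.log_pow, Real.log_exp] at d4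
      refine d4.trans ?_
      have h9 := hp.a3
      have h8 : ((M + 1 : ℕ) : ℝ) = M + 1 := by push_cast; ring
      rw [h8]
      linarith
    · intro z hz
      exact (hE z (mem_filter.1 hz).1).1
    · intro t ht
      have ht' : t ∈ P := (mem_filter.1 ht).1
      have hLt := (hPt t ht').2.2
      have q1 : 16 * (((s + 1 : ℕ) : ℝ)) ^ 2 ≤ t := by
        calc 16 * (((s + 1 : ℕ) : ℝ)) ^ 2 ≤ 16 * (L ^ (ε / 16)) ^ 2 := by gcongr
          _ ≤ L := hp.a1
          _ ≤ t := hLt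
      have q2 : 8 * ((M : ℝ) * ((s + 1 : ℕ) : ℝ)) ≤ t := by
        calc 8 * ((M : ℝ) * ((s + 1 : ℕ) : ℝ)) ≤ 8 * (M * L ^ (ε / 16)) := by gcongr
          _ ≤ L := hp.a2
          _ ≤ t := hLt
      exact card_OmS (hprime t ht') (by exact_mod_cast q1) (by exact_mod_cast q2)
        (mem_filter.1 ht).2
    · intro z hz t ht
      exact (mem_filter.1 hz).2 t ht
  have hcard : (Fintype.card I : ℝ) = ((lam : ℝ) ^ (s + 1)) ^ M * (2 * H + 1 : ℝ) ^ M := by
    simp only [hI, Fintype.card_prod, Fintype.card_fun, Fintype.card_fin]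
    push_cast
    rfl
  have hIle : (Fintype.card I : ℝ) ≤ (N : ℝ) ^ (ε / 8) := by
    rw [hcard, ← Real.log_le_log_iff (by positivity) (by positivity),
      Real.log_mul (by positivity) (by positivity), Real.log_pow, Real.log_pow, Real.log_pow,
      Real.log_rpow hNR]
    have b1 : Real.log lam ≤ L ^ (1 - ε / 4) := by
      have : Real.log lam ≤ Real.log (Real.exp (L ^ (1 - ε / 4))) :=
        Real.log_le_log (by exact_mod_cast hlam) hlamL
      rwa [Real.log_exp] at this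
    have b2 : Real.log (2 * H + 1 : ℝ) ≤ 2 + L ^ (1 - ε) := by
      have c1 : (2 * H + 1 : ℝ) ≤ 3 * Real.exp (L ^ (1 - ε)) := by
        have : (1 : ℝ) ≤ Real.exp (L ^ (1 - ε)) := Real.one_le_exp (by positivity)
        linarith
      have c2 := Real.log_le_log (by positivity) c1
      rw [Real.log_mul (by norm_num) (Real.exp_pos _).ne', Real.log_exp] at c2
      have c3 : Real.log 3 ≤ 2 := by
        have := Real.log_le_sub_one_of_pos (show (0 : ℝ) < 3 by norm_num)
        linarith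
      linarith
    have b0 : 0 ≤ Real.log lam := Real.log_nonneg (by exact_mod_cast hlam)
    have b3 : (M : ℝ) * (((s + 1 : ℕ) : ℝ) * Real.log lam) ≤
        M * (L ^ (ε / 16) * L ^ (1 - ε / 4)) := by
      apply mul_le_mul_of_nonneg_left _ (Nat.cast_nonneg _)
      exact mul_le_mul hs b1 b0 (by positivity)
    have b4 : (M : ℝ) * Real.log (2 * H + 1 : ℝ) ≤ M * (2 + L ^ (1 - ε)) :=
      mul_le_mul_of_nonneg_left b2 (Nat.cast_nonneg _)
    have b5 := hp.a4
    have b6 : (M : ℝ) * (L ^ (ε / 16) * L ^ (1 - ε / 4)) = M * L ^ (ε / 16) * L ^ (1 - ε / 4) := by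
      ring
    linarith
  calc (E.card : ℝ) ≤ ((((univ : Finset I).filter good).biUnion ZI).card : ℝ) := by
        exact_mod_cast card_le_card hsub
    _ ≤ ∑ i ∈ (univ : Finset I).filter good, ((ZI i).card : ℝ) := by
        exact_mod_cast card_biUnion_le
    _ ≤ ∑ i ∈ (univ : Finset I).filter good, (N : ℝ) ^ ((M : ℝ) - 1 / 4 + ε / 2) := sum_le_sum hZ
    _ = (((univ : Finset I).filter good).card : ℝ) * (N : ℝ) ^ ((M : ℝ) - 1 / 4 + ε / 2) := by
        rw [sum_const, nsmul_eq_mul]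
    _ ≤ (N : ℝ) ^ (ε / 8) * (N : ℝ) ^ ((M : ℝ) - 1 / 4 + ε / 2) := by
        apply mul_le_mul_of_nonneg_right _ (by positivity)
        refine le_trans ?_ hIle
        exact_mod_cast card_le_univ _
    _ = (N : ℝ) ^ ((M : ℝ) - 1 / 4 + 5 * ε / 8) := by
        rw [← Real.rpow_add hNR]
        congr 1
        ring

end Pool.Agent.TH194.SP
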