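import Mathlib
import Pool.Agent.TH194.SP.Fin

/-!
Project SP (helper194): boxes, products.
-/

set_option autoImplicit false

namespace Pool.Agent.TH194.SP

open Finset Filter Pool.Agent.TH194.BL

/-- `X` is a product of at least one and arbitrarily many integers of the interval `[b, b + s]`. -/
def IsProduct (b s X : ℕ) : Prop :=
  ∃ (n : ℕ) (x : Fin n → ℕ), 0 < n ∧ (∀ i, b ≤ x i ∧ x i ≤ b + s) ∧ X = ∏ i, x i

theorem IsProduct.mono {b s s' X : ℕ} (h : IsProduct b s X) (hs : s ≤ s') : IsProduct b s' X := by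
  obtain ⟨n, x, h1, h2, h3⟩ := h
  exact ⟨n, x, h1, fun i => ⟨(h2 i).1, (h2 i).2.trans (by omega)⟩, h3⟩

theorem IsProduct.exists_exp {b s X : ℕ} (h : IsProduct b s X) :
    ∃ e : Fin (s + 1) → ℕ, X = ∏ j : Fin (s + 1), (b + (j : ℕ)) ^ e j := by
  classical
  obtain ⟨n, x, -, h2, h3⟩ := h
  set f : Fin n → Fin (s + 1) := fun i => ⟨x i - b, by have := h2 i; omega⟩ with hf
  refine ⟨fun j => (univ.filter (fun i => f i = j)).card, ?_⟩
  rw [h3, ← prod_fiberwise_of_maps_to (g := f) (t := univ) (fun i _ => mem_univ _)]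
  apply prod_congr rfl
  intro j _
  rw [← prod_const]
  apply prod_congr rfl
  intro i hi
  have h4 := (mem_filter.1 hi).2
  have h5 : x i - b = j := by rw [← h4]
  have := h2 i
  omega

theorem boxes (M : ℕ) {ε : ℝ} (h0 : 0 < ε) : ∃ δ : ℝ, 0 < δ ∧ ∃ N₀ : ℕ, ∀ N : ℕ, N₀ ≤ N →
    ∀ s : ℕ, (s : ℝ) ≤ Real.log N ^ δ →
    ∀ a w : Fin M → ℕ, (∀ i, N ≤ w i) → ∀ E : Finset (Fin M → ℕ),
    (∀ b ∈ E, (∀ i, a i < b i ∧ b i ≤ a i + w i) ∧ b ∈ ExcS M s (W.HH N ε)) →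
    (E.card : ℝ) ≤ (N : ℝ) ^ (-(1 / 4) + ε) * ∏ i, (w i : ℝ) := by
  classical
  set ε' := min ε (1 / 8) with hε'
  have hδ0 : 0 < ε' := lt_min h0 (by norm_num)
  have hδ1 : ε' ≤ 1 / 8 := min_le_right _ _
  have hδε : ε' ≤ ε := min_le_left _ _
  obtain ⟨N₁, hN₁⟩ := one_cube M hδ0 hδ1
  have hev2 : ∀ᶠ L : ℝ in atTop, 2 ≤ L ^ (ε' / 32) :=
    (tendsto_rpow_atTop (by linarith)).eventually_ge_atTop 2
  have hev := (Real.tendsto_log_atTop.comp tendsto_natCast_atTop_atTop).eventually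
    ((ev_par M 0 hδ0 hδ1 0).and hev2)
  obtain ⟨N₂, hN₂⟩ := eventually_atTop.1 hev
  refine ⟨ε' / 32, by linarith, max (max N₁ N₂) 1, fun N hN s hs a b hb E hE => ?_⟩
  have hN1 : 1 ≤ N := (le_max_right _ _).trans hN
  have hNN1 : N₁ ≤ N := ((le_max_left _ _).trans (le_max_left _ _)).trans hN
  have hNN2 : N₂ ≤ N := ((le_max_right _ _).trans (le_max_left _ _)).trans hN
  obtain ⟨hp, hL2⟩ : Par M 0 ε' 0 (Real.log N) ∧ 2 ≤ Real.log N ^ (ε' / 32) := hN₂ N hNN2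
  set L := Real.log N with hL
  have hL0 : 0 < L := by linarith [hp.l1]
  have hNR : (0 : ℝ) < N := by exact_mod_cast hN1
  have hNR1 : (1 : ℝ) ≤ N := by exact_mod_cast hN1
  have hs' : ((s + 1 : ℕ) : ℝ) ≤ L ^ (ε' / 16) := by
    have e1 : L ^ (ε' / 16) = L ^ (ε' / 32) * L ^ (ε' / 32) := by
      rw [← Real.rpow_add hL0]
      congr 1
      ring
    rw [e1]
    push_cast
    nlinarith
  have hHmono : W.HH N ε ≤ W.HH N ε' := by
    unfold W.HH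
    apply Nat.floor_le_floor
    apply Real.exp_le_exp.2
    exact Real.rpow_le_rpow_of_exponent_le hp.l1 (by linarith)
  have hkc : (2 : ℝ) ^ M ≤ (N : ℝ) ^ (ε' / 8) := by
    calc (2 : ℝ) ^ M ≤ 12 ^ M := pow_le_pow_left₀ (by norm_num) (by norm_num) M
      _ = Real.exp (M * Real.log 12) := by
          rw [Real.exp_nat_mul, Real.exp_log (by norm_num)]
      _ ≤ Real.exp (ε' / 8 * L) := Real.exp_le_exp.2 hp.e9
      _ = _ := by rw [Real.rpow_def_of_pos hNR, mul_comm]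
  set bd : ℝ := (N : ℝ) ^ ((M : ℝ) - 1 / 4 + 5 * ε' / 8) with hbd
  have hq : (E.card : ℝ) ≤ bd * (2 ^ M * (∏ i, (b i : ℝ)) / (N : ℝ) ^ M) := by
    apply box_count hN1 hb
    · intro A hA
      exact (hE A hA).1
    · positivity
    · intro a' E' hE' hcube
      apply hN₁ N hNN1 s hs' a' E'
      intro A hA
      refine ⟨hcube A hA, ?_⟩
      obtain ⟨e, c, q0, q1, q2, q3⟩ := (hE A (hE' hA)).2
      exact ⟨e, c, q0, fun i => (q1 i).trans (by exact_mod_cast hHmono), q2, q3⟩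
  have hM0 : (0 : ℝ) ≤ ∏ i, (b i : ℝ) := prod_nonneg (fun i _ => Nat.cast_nonneg _)
  calc (E.card : ℝ) ≤ bd * (2 ^ M * (∏ i, (b i : ℝ)) / (N : ℝ) ^ M) := hq
    _ ≤ bd * ((N : ℝ) ^ (ε' / 8) * (∏ i, (b i : ℝ)) / (N : ℝ) ^ M) := by gcongr
    _ = ((N : ℝ) ^ (ε' / 8) * (bd * (N : ℝ) ^ (-(M : ℝ)))) * ∏ i, (b i : ℝ) := by
        rw [Real.rpow_neg hNR.le, Real.rpow_natCast]
        ring
    _ = (N : ℝ) ^ (-(1 / 4) + 6 * ε' / 8) * ∏ i, (b i : ℝ) := by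
        congr 1
        rw [hbd, ← Real.rpow_add hNR, ← Real.rpow_add hNR]
        congr 1
        ring
    _ ≤ (N : ℝ) ^ (-(1 / 4) + ε) * ∏ i, (b i : ℝ) := by
        apply mul_le_mul_of_nonneg_right _ hM0
        apply Real.rpow_le_rpow_of_exponent_le hNR1
        linarith

/-- **Sums of products with random bases.** -/
theorem products (M : ℕ) {ε : ℝ} (h0 : 0 < ε) : ∃ δ : ℝ, 0 < δ ∧ ∃ N₀ : ℕ, ∀ N : ℕ, N₀ ≤ N →
    ∀ a w : Fin M → ℕ, (∀ i, N ≤ w i) →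
    (({b : Fin M → ℕ | (∀ i, a i < b i ∧ b i ≤ a i + w i) ∧
      ∃ (c : Fin M → ℤ) (X : Fin M → ℕ),
        (∀ i, c i ≠ 0 ∧ |(c i : ℝ)| ≤ Real.exp (Real.log N ^ (1 - ε))) ∧ ∑ i, c i ≠ 0 ∧
        (∀ i, ∃ s : ℕ, (s : ℝ) ≤ Real.log N ^ δ ∧ IsProduct (b i) s (X i)) ∧
        ∑ i, c i * (X i : ℤ) = 0}.ncard : ℕ) : ℝ) ≤
      (N : ℝ) ^ (-(1 / 4) + ε) * ∏ i, (w i : ℝ) := by
  classical
  obtain ⟨δ, hδ, N₀, hN₀⟩ := boxes M h0
  refine ⟨δ, hδ, max N₀ 1, fun N hN a w hw => ?_⟩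
  have hN1 : 1 ≤ N := (le_max_right _ _).trans hN
  set X := {b : Fin M → ℕ | (∀ i, a i < b i ∧ b i ≤ a i + w i) ∧
      ∃ (c : Fin M → ℤ) (X : Fin M → ℕ),
        (∀ i, c i ≠ 0 ∧ |(c i : ℝ)| ≤ Real.exp (Real.log N ^ (1 - ε))) ∧ ∑ i, c i ≠ 0 ∧
        (∀ i, ∃ s : ℕ, (s : ℝ) ≤ Real.log N ^ δ ∧ IsProduct (b i) s (X i)) ∧
        ∑ i, c i * (X i : ℤ) = 0} with hX
  set Bx : Finset (Fin M → ℕ) := Fintype.piFinset (fun i => Ioc (a i) (a i + w i)) with hBx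
  have hXB : X ⊆ (Bx : Set (Fin M → ℕ)) := by
    intro A hA
    rw [mem_coe, hBx, Fintype.mem_piFinset]
    intro i
    rw [mem_Ioc]
    exact hA.1 i
  have hfin : X.Finite := Bx.finite_toSet.subset hXB
  rw [Set.ncard_eq_toFinset_card X hfin]
  have hs0 : (0 : ℝ) ≤ Real.log N ^ δ :=
    Real.rpow_nonneg (Real.log_nonneg (by exact_mod_cast hN1)) _
  apply hN₀ N ((le_max_left _ _).trans hN) ⌊Real.log N ^ δ⌋₊ (Nat.floor_le hs0) a w hw
  intro b hb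
  rw [Set.Finite.mem_toFinset] at hb
  obtain ⟨h1, c, Y, h2, h3, h4, h5⟩ := hb
  refine ⟨h1, ?_⟩
  have h6 : ∀ i, ∃ e : Fin (⌊Real.log N ^ δ⌋₊ + 1) → ℕ,
      Y i = ∏ j : Fin (⌊Real.log N ^ δ⌋₊ + 1), (b i + (j : ℕ)) ^ e j := by
    intro i
    obtain ⟨s, hs, hY⟩ := h4 i
    exact (hY.mono (Nat.le_floor hs)).exists_exp
  choose e he using h6
  refine ⟨e, c, fun i => (h2 i).1, fun i => ?_, h3, ?_⟩
  · unfold W.HH
    have h5 := (h2 i).2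
    have h6 : ((|c i|).toNat : ℝ) ≤ Real.exp (Real.log N ^ (1 - ε)) := by
      have : ((|c i|).toNat : ℝ) = |(c i : ℝ)| := by
        have e1 : (((|c i|).toNat : ℤ) : ℝ) = ((|c i| : ℤ) : ℝ) := by
          rw [Int.toNat_of_nonneg (abs_nonneg _)]
        rw [Int.cast_natCast] at e1
        rw [e1, Int.cast_abs]
      rw [this]
      exact h5
    have h7 := Nat.le_floor h6
    have h8 : |c i| = ((|c i|).toNat : ℤ) := (Int.toNat_of_nonneg (abs_nonneg _)).symm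
    rw [h8]
    exact_mod_cast h7
  · rw [← h5]
    apply sum_congr rfl
    intro i _
    rw [he i]
    push_cast
    rfl

end Pool.Agent.TH194.SP
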