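import Pool.Agent.TH194.SP.WeilLin

/-!
Project SP (helper194): the local lemma. If some exponent is not divisible by `t - 1`, then
`∏ (b + h_j) ^ e_j` takes each value for at most five eighths of the residues `b` modulo `t`.
-/

set_option autoImplicit false

namespace Pool.Agent.TH194.SP

open Finset

/-- elements of order dividing `m / ℓ` are `ℓ`-th powers -/
theorem exists_root {t : ℕ} [Fact t.Prime] {ℓ m : ℕ} (hm : t - 1 = ℓ * m) (hm0 : 0 < m)
    (hℓ : 0 < ℓ) {u : (ZMod t)ˣ} (hu : u ^ m = 1) : ∃ z : (ZMod t)ˣ, u = z ^ ℓ := by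
  obtain ⟨g, hg⟩ := IsCyclic.exists_generator (α := (ZMod t)ˣ)
  obtain ⟨k, rfl⟩ := Subgroup.mem_zpowers_iff.1 (hg u)
  have hord : orderOf g = t - 1 := by
    rw [orderOf_eq_card_of_forall_mem_zpowers hg, Nat.card_eq_fintype_card,
      ZMod.card_units_eq_totient, Nat.totient_prime Fact.out]
  have h1 : g ^ (k * m) = 1 := by
    rw [zpow_mul, zpow_natCast]
    exact hu
  have h2 : ((t - 1 : ℕ) : ℤ) ∣ k * m := by
    rw [← hord]
    exact orderOf_dvd_iff_zpow_eq_one.2 h1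
  rw [hm] at h2
  push_cast at h2
  have h3 : (ℓ : ℤ) ∣ k := Int.dvd_of_mul_dvd_mul_right (by exact_mod_cast hm0.ne') h2
  obtain ⟨z, rfl⟩ := h3
  refine ⟨g ^ z, ?_⟩
  rw [← zpow_natCast, ← zpow_mul, mul_comm]

open Classical in
/-- the local lemma with positive exponents -/
theorem loc_pos (t n : ℕ) [Fact t.Prime] (hn : 16 * n ^ 2 ≤ t) (h : Fin n → ZMod t)
    (hinj : Function.Injective h) (e : Fin n → ℕ) (hpos : ∀ j, 0 < e j)
    (he : ∃ j, ¬ (t - 1) ∣ e j) (v : ZMod t) :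
    (((univ : Finset (ZMod t)).filter (fun b => (∀ j, b + h j ≠ 0) ∧
      ∏ j, (b + h j) ^ e j = v)).card : ℝ) ≤ 5 / 8 * t := by
  have htp : t.Prime := Fact.out
  obtain ⟨j₀, hj₀⟩ := he
  have ht2 : 1 < t - 1 := by
    rcases Nat.lt_or_ge 1 (t - 1) with h1 | h1
    · exact h1
    · exfalso
      apply hj₀
      have : t - 1 = 1 := by
        have := htp.two_le
        omega
      rw [this]
      exact one_dvd _
  -- a prime with small valuation at `e j₀`
  obtain ⟨ℓ, hℓ, hv⟩ : ∃ ℓ : ℕ, ℓ.Prime ∧ (e j₀).factorization ℓ < (t - 1).factorization ℓ := by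
    by_contra hcon
    push Not at hcon
    apply hj₀
    rw [← Nat.factorization_prime_le_iff_dvd (by omega) (hpos j₀).ne']
    exact hcon
  obtain ⟨j₁, hj₁⟩ : ∃ j₁ : Fin n, ∀ j, (e j₁).factorization ℓ ≤ (e j).factorization ℓ := by
    obtain ⟨j₁, -, h1⟩ := exists_min_image (univ : Finset (Fin n))
      (fun j => (e j).factorization ℓ) ⟨j₀, mem_univ _⟩
    exact ⟨j₁, fun j => h1 j (mem_univ j)⟩
  set m := (e j₁).factorization ℓ with hm
  have hmV : m + 1 ≤ (t - 1).factorization ℓ := lt_of_le_of_lt (hj₁ j₀) hv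
  have hdvd1 : ℓ ^ (m + 1) ∣ t - 1 :=
    (pow_dvd_pow ℓ hmV).trans (Nat.ordProj_dvd (t - 1) ℓ)
  obtain ⟨r, hr⟩ := hdvd1
  have hr0 : 0 < r := by
    rcases Nat.eq_zero_or_pos r with h1 | h1
    · rw [h1, mul_zero] at hr
      omega
    · exact h1
  have hc : ∀ j, ∃ c, e j = ℓ ^ m * c := by
    intro j
    exact (pow_dvd_pow ℓ (hj₁ j)).trans (Nat.ordProj_dvd (e j) ℓ)
  choose c hc using hc
  have hc0 : ∀ j, 0 < c j := by
    intro j
    rcases Nat.eq_zero_or_pos (c j) with h1 | h1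
    · have := hpos j
      rw [hc j, h1, mul_zero] at this
      exact absurd this (lt_irrefl _)
    · exact h1
  have hc1 : ¬ ℓ ∣ c j₁ := by
    intro hd
    have h1 : ℓ ^ (m + 1) ∣ e j₁ := by
      rw [hc j₁, pow_succ]
      exact Nat.mul_dvd_mul_left _ hd
    have h2 := (hℓ.pow_dvd_iff_le_factorization (hpos j₁).ne').1 h1
    omega
  set M := ℓ ^ m * r with hM
  have hM0 : 0 < M := by have := hℓ.pos; positivity
  have htM : t - 1 = ℓ * M := by rw [hr, hM, pow_succ]; ring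
  -- the character
  have hcardF : Fintype.card (ZMod t) = t := ZMod.card t
  have hℓd : ℓ ∣ Fintype.card (ZMod t) - 1 := by rw [hcardF, htM]; exact Dvd.intro _ rfl
  obtain ⟨χ, hχ⟩ := MulChar.exists_mulChar_orderOf (ZMod t) hℓd
    (Complex.isPrimitiveRoot_exp ℓ hℓ.ne_zero)
  have hχ1 : χ ≠ 1 := by
    intro h1
    rw [h1, orderOf_one] at hχ
    exact hℓ.one_lt.ne hχ
  have hχℓ : χ ^ ℓ = 1 := by rw [← hχ]; exact pow_orderOf_eq_one χ
  -- Weil
  set J : Finset (ZMod t) := univ.image (fun j => - h j) with hJ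
  have hinj' : Function.Injective (fun j => - h j) := fun a b hab => hinj (neg_injective hab)
  have hJc : J.card = n := by
    rw [hJ, card_image_of_injective _ hinj', card_univ, Fintype.card_fin]
  set c' : ZMod t → ℕ := fun a => ∑ j ∈ univ.filter (fun j => - h j = a), c j with hc'
  have hc'j : ∀ j, c' (- h j) = c j := by
    intro j
    rw [hc']
    simp only
    rw [sum_eq_single_of_mem j]
    · rw [mem_filter]; exact ⟨mem_univ _, rfl⟩
    · intro i hi hij
      rw [mem_filter] at hi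
      exact absurd (hinj' hi.2) hij
  have hprod : ∀ b : ZMod t, ∏ a ∈ J, (b - a) ^ c' a = ∏ j, (b + h j) ^ c j := by
    intro b
    rw [hJ, prod_image (fun i _ j _ hij => hinj' hij)]
    apply prod_congr rfl
    intro j _
    rw [hc'j, sub_neg_eq_add]
  have hweil := weil_lin ℓ hℓ hℓd χ hχ1 hχℓ J c' (by
      intro a ha
      rw [hJ, mem_image] at ha
      obtain ⟨j, -, rfl⟩ := ha
      rw [hc'j]
      exact hc0 j)
    ⟨- h j₁, by rw [hJ]; exact mem_image_of_mem _ (mem_univ _), by rw [hc'j]; exact hc1⟩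
  rw [hJc, hcardF] at hweil
  simp_rw [hprod] at hweil
  -- the set
  set G := (univ : Finset (ZMod t)).filter (fun b => (∀ j, b + h j ≠ 0) ∧
      ∏ j, (b + h j) ^ e j = v) with hG
  rcases G.eq_empty_or_nonempty with hGe | ⟨b₀, hb₀⟩
  · rw [hGe, card_empty]
    push_cast
    positivity
  set f : ZMod t → ZMod t := fun b => ∏ j, (b + h j) ^ c j with hf
  have hfne : ∀ b ∈ G, f b ≠ 0 := by
    intro b hb
    rw [hG, mem_filter] at hb
    exact prod_ne_zero_iff.2 fun j _ => pow_ne_zero _ (hb.2.1 j)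
  have hfM : ∀ b ∈ G, f b ^ M = v ^ r := by
    intro b hb
    rw [hG, mem_filter] at hb
    rw [← hb.2.2, hf]
    simp only
    rw [← prod_pow, ← prod_pow]
    apply prod_congr rfl
    intro j _
    rw [← pow_mul, ← pow_mul, hc j, hM]
    congr 1
    ring
  have hconst : ∀ b ∈ G, χ (f b) = χ (f b₀) := by
    intro b hb
    have h1 : Units.mk0 (f b) (hfne b hb) / Units.mk0 (f b₀) (hfne b₀ hb₀) ∈ (⊤ : Subgroup _) :=
      Subgroup.mem_top _
    have h2 : (Units.mk0 (f b) (hfne b hb) / Units.mk0 (f b₀) (hfne b₀ hb₀)) ^ M = 1 := by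
      rw [div_pow, div_eq_one]
      apply Units.ext
      rw [Units.val_pow_eq_pow_val, Units.val_pow_eq_pow_val, Units.val_mk0, Units.val_mk0,
        hfM b hb, hfM b₀ hb₀]
    obtain ⟨z, hz⟩ := exists_root htM hM0 hℓ.pos h2
    have h3 : f b = f b₀ * (z : ZMod t) ^ ℓ := by
      have h4 := congrArg (fun x : (ZMod t)ˣ => (x : ZMod t)) (div_eq_iff_eq_mul'.1 hz)
      simpa using h4
    rw [h3, map_mul, map_pow, ← MulChar.pow_apply' χ hℓ.ne_zero, hχℓ,
      MulChar.one_apply z.isUnit, mul_one]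
  have hnorm : ∀ y : ZMod t, y ≠ 0 → ‖χ y‖ = 1 := by
    intro y hy
    have hu : IsUnit y := isUnit_iff_ne_zero.2 hy
    have h1 : (χ y) ^ ℓ = 1 := by
      rw [← MulChar.pow_apply' χ hℓ.ne_zero, hχℓ, MulChar.one_apply hu]
    have h2 : ‖χ y‖ ^ ℓ = 1 := by rw [← norm_pow, h1, norm_one]
    exact (pow_eq_one_iff_of_nonneg (norm_nonneg _) hℓ.ne_zero).1 h2
  have hnorm' : ∀ y : ZMod t, ‖χ y‖ ≤ 1 := by
    intro y
    by_cases hy : y = 0
    · rw [hy, MulChar.map_zero, norm_zero]; exact zero_le_one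
    · exact (hnorm y hy).le
  -- comparison
  have hsplit : ∑ b, χ (f b) = (G.card : ℂ) * χ (f b₀) + ∑ b ∈ Gᶜ, χ (f b) := by
    rw [← sum_add_sum_compl G, sum_congr rfl hconst, sum_const, nsmul_eq_mul]
  have h5 : (G.card : ℝ) - (Gᶜ.card : ℝ) ≤ n * Real.sqrt t := by
    have h6 : ‖(G.card : ℂ) * χ (f b₀)‖ = G.card := by
      rw [norm_mul, hnorm _ (hfne b₀ hb₀), mul_one, Complex.norm_natCast]
    have h7 : ‖∑ b ∈ Gᶜ, χ (f b)‖ ≤ Gᶜ.card := by
      calc ‖∑ b ∈ Gᶜ, χ (f b)‖ ≤ ∑ b ∈ Gᶜ, ‖χ (f b)‖ := norm_sum_le _ _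
        _ ≤ ∑ b ∈ Gᶜ, (1 : ℝ) := sum_le_sum fun b _ => hnorm' _
        _ = Gᶜ.card := by simp
    have h8 : (G.card : ℂ) * χ (f b₀) = ∑ b, χ (f b) - ∑ b ∈ Gᶜ, χ (f b) := by
      rw [hsplit]; ring
    have h9 := norm_sub_le (∑ b, χ (f b)) (∑ b ∈ Gᶜ, χ (f b))
    rw [← h8, h6] at h9
    have h10 : ‖∑ b, χ (f b)‖ ≤ n * Real.sqrt t := hweil
    linarith
  have h11 : (G.card : ℝ) + (Gᶜ.card : ℝ) = t := by
    have : G.card + Gᶜ.card = t := by rw [card_add_card_compl, hcardF]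
    exact_mod_cast this
  have h12 : (n : ℝ) * Real.sqrt t ≤ t / 4 := by
    have h13 : (n : ℝ) ≤ Real.sqrt t / 4 := by
      rw [le_div_iff₀ (by norm_num)]
      apply Real.le_sqrt_of_sq_le
      have : (16 * (n : ℝ) ^ 2) ≤ t := by exact_mod_cast hn
      linarith
    calc (n : ℝ) * Real.sqrt t ≤ Real.sqrt t / 4 * Real.sqrt t := by gcongr
      _ = t / 4 := by
          have := Real.mul_self_sqrt (show (0 : ℝ) ≤ t from Nat.cast_nonneg t)
          linarith
  linarith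

open Classical in
/-- **The local lemma.** -/
theorem loc_one (t n : ℕ) [Fact t.Prime] (hn : 16 * n ^ 2 ≤ t) (h : Fin n → ZMod t)
    (hinj : Function.Injective h) (e : Fin n → ℕ) (he : ∃ j, ¬ (t - 1) ∣ e j) (v : ZMod t) :
    (((univ : Finset (ZMod t)).filter (fun b => (∀ j, b + h j ≠ 0) ∧
      ∏ j, (b + h j) ^ e j = v)).card : ℝ) ≤ 5 / 8 * t := by
  have htp : t.Prime := Fact.out
  have h1 := loc_pos t n hn h hinj (fun j => e j + (t - 1)) (fun j => by
      have := htp.two_le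
      omega) (by
      obtain ⟨j, hj⟩ := he
      exact ⟨j, fun h2 => hj ((Nat.dvd_add_left dvd_rfl).1 h2)⟩) v
  refine le_trans (le_of_eq ?_) h1
  congr 2
  apply filter_congr
  intro b _
  constructor
  · rintro ⟨h2, h3⟩
    refine ⟨h2, ?_⟩
    rw [← h3]
    apply prod_congr rfl
    intro j _
    rw [pow_add, ZMod.pow_card_sub_one_eq_one (h2 j), mul_one]
  · rintro ⟨h2, h3⟩
    refine ⟨h2, ?_⟩
    rw [← h3]
    apply prod_congr rfl
    intro j _
    rw [pow_add, ZMod.pow_card_sub_one_eq_one (h2 j), mul_one]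

end Pool.Agent.TH194.SP
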