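import Pool.Agent.H435R3.Weil.Main

/-!
Project SP (helper194): Weil's bound for `∑ χ(∏ (x - a)^{c_a})`, `χ` of prime order, with the number
of different `a` as the constant, whatever the exponents `c_a`.
-/

set_option autoImplicit false

namespace Pool.Agent.TH194.SP

open Polynomial Finset Pool.Agent.H341R2.Sharp IntermediateField Pool.Agent.H435R3.Weil

section

variable {F : Type} [Field F] [Fintype F] [DecidableEq F]

/-- the polynomial -/
noncomputable def PJ (J : Finset F) (c : F → ℕ) : F[X] := ∏ a ∈ J, (X - C a) ^ c a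

theorem PJ_monic (J : Finset F) (c : F → ℕ) : (PJ J c).Monic := by
  unfold PJ
  apply monic_prod_of_monic
  intro a _
  exact (monic_X_sub_C a).pow _

theorem res_PJ (J : Finset F) (c : F → ℕ) (h : F[X]) :
    resultant h (PJ J c) h.natDegree (PJ J c).natDegree =
      (-1) ^ (h.natDegree * (∑ a ∈ J, c a)) * ∏ a ∈ J, h.eval a ^ c a := by
  unfold PJ
  rw [resultant_prod_right _ _ _ _ le_rfl]
  · have h1 : ∀ a ∈ J, h.resultant ((X - C a) ^ c a) h.natDegree ((X - C a) ^ c a).natDegree =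
        (-1) ^ (h.natDegree * c a) * h.eval a ^ c a := by
      intro a _
      have h2 := resultant_X_sub_C_pow_right h a h.natDegree (c a) le_rfl
      have h3 : ((X - C a) ^ c a).natDegree = c a := by
        rw [(monic_X_sub_C a).natDegree_pow, natDegree_X_sub_C, mul_one]
      rw [h3]
      exact h2
    rw [prod_congr rfl h1, prod_mul_distrib, prod_pow_eq_pow_sum, ← mul_sum]
  · rw [prod_eq_one]
    · exact one_ne_zero
    · intro a _
      exact ((monic_X_sub_C a).pow _)

theorem lam_PJ (χ : MulChar F ℂ) (J : Finset F) (c : F → ℕ) (h : F[X]) :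
    lamPR χ (PJ J c) 1 h =
      χ ((-1) ^ (h.natDegree * (∑ a ∈ J, c a))) * χ (∏ a ∈ J, h.eval a ^ c a) := by
  unfold lamPR
  have h1 : resultant h (1 : F[X]) h.natDegree (1 : F[X]).natDegree = 1 := by
    rw [natDegree_one, resultant_zero_right_deg]
    simp
  rw [h1, res_PJ, map_mul]
  simp

/-- vanishing in degree at least the number of the different roots -/
theorem AL_PJ_zero (χ : MulChar F ℂ) (J : Finset F) (c : F → ℕ) (hc : ∀ a ∈ J, 0 < c a) (r : F[X])
    (hr : r.Monic)
    (hev : Even r.natDegree) (hlam0 : lamPR χ (PJ J c) 1 r ≠ 0) (hlam1 : lamPR χ (PJ J c) 1 r ≠ 1)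
    (n : ℕ) (hn : J.card ≤ n) : AL (lamPR χ (PJ J c) 1) n = 0 := by
  classical
  set f : F[X] := ∏ a ∈ J, (X - C a) with hf0
  have hf : f.Monic := monic_prod_of_monic _ _ fun a _ => monic_X_sub_C a
  have hfd : f.natDegree = J.card := by
    rw [hf0, natDegree_prod_of_monic _ _ fun a _ => monic_X_sub_C a]
    simp
  set d := f.natDegree with hd
  have hn' : d ≤ n := by rw [hfd]; exact hn
  set m := r.natDegree with hm
  have hr0 : ∀ a ∈ J, r.eval a ≠ 0 := by
    intro a ha h0
    apply hlam0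
    rw [lam_PJ]
    have : ∏ a ∈ J, r.eval a ^ c a = 0 := by
      apply prod_eq_zero ha
      rw [h0, zero_pow (hc a ha).ne']
    rw [this, MulChar.map_zero, mul_zero]
  have hcop : IsCoprime f r := by
    rw [hf0]
    apply IsCoprime.prod_left
    intro a ha
    rw [(irreducible_X_sub_C a).coprime_iff_not_dvd, dvd_iff_isRoot]
    exact hr0 a ha
  let Φ : F[X] → F[X] := fun h => f * (h /ₘ f) + (r * h) %ₘ f
  have hΦ : ∀ h ∈ Mon F n, Φ h ∈ Mon F n := by
    intro h hh
    rw [mem_Mon] at hh ⊢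
    have hdeg1 : ((r * h) %ₘ f).degree < f.degree := degree_modByMonic_lt _ hf
    have hfdeg : f.degree ≤ h.degree := by
      rw [degree_eq_natDegree hf.ne_zero, degree_eq_natDegree hh.1.ne_zero, hh.2]
      exact_mod_cast hn'
    have hmq : (h /ₘ f).Monic := by
      rw [Monic, leadingCoeff_divByMonic_of_monic hf hfdeg]
      exact hh.1
    have hfq : (f * (h /ₘ f)).Monic := hf.mul hmq
    have hnd : (f * (h /ₘ f)).natDegree = n := by
      rw [hf.natDegree_mul hmq, natDegree_divByMonic _ hf, hh.2]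
      omega
    have hdeg2 : ((r * h) %ₘ f).degree < (f * (h /ₘ f)).degree := by
      refine hdeg1.trans_le ?_
      rw [degree_eq_natDegree hf.ne_zero, degree_eq_natDegree hfq.ne_zero, hnd]
      exact_mod_cast hn'
    refine ⟨hfq.add_of_left hdeg2, ?_⟩
    change (f * (h /ₘ f) + (r * h) %ₘ f).natDegree = n
    rw [natDegree_add_eq_left_of_degree_lt hdeg2, hnd]
  have hinj : Set.InjOn Φ (Mon F n) := by
    intro g hg h hh hgh
    have hg' := mem_Mon.1 (mem_coe.1 hg)
    have hh' := mem_Mon.1 (mem_coe.1 hh)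
    have e1 : g /ₘ f = h /ₘ f ∧ (r * g) %ₘ f = (r * h) %ₘ f := by
      have hu1 := div_modByMonic_unique (f := Φ g) (g := f) (g /ₘ f) ((r * g) %ₘ f) hf
        ⟨by change (r * g) %ₘ f + f * (g /ₘ f) = f * (g /ₘ f) + (r * g) %ₘ f; ring,
          degree_modByMonic_lt _ hf⟩
      have hu2 := div_modByMonic_unique (f := Φ h) (g := f) (h /ₘ f) ((r * h) %ₘ f) hf
        ⟨by change (r * h) %ₘ f + f * (h /ₘ f) = f * (h /ₘ f) + (r * h) %ₘ f; ring,
          degree_modByMonic_lt _ hf⟩
      constructor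
      · rw [← hu1.1, ← hu2.1, hgh]
      · rw [← hu1.2, ← hu2.2, hgh]
    have e2 : f ∣ r * (g - h) := by
      have : (r * (g - h)) %ₘ f = 0 := by
        rw [mul_sub, sub_modByMonic, e1.2, sub_self]
      exact (modByMonic_eq_zero_iff_dvd hf).1 this
    have e3 : f ∣ g - h := hcop.dvd_of_dvd_mul_left e2
    have e4 : g - h = g %ₘ f - h %ₘ f := by
      have h1 := modByMonic_add_div g f
      have h2 := modByMonic_add_div h f
      calc g - h = (g %ₘ f + f * (g /ₘ f)) - (h %ₘ f + f * (h /ₘ f)) := by rw [h1, h2]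
        _ = g %ₘ f - h %ₘ f := by rw [e1.1]; ring
    have e5 : (g - h).degree < f.degree := by
      rw [e4]
      exact (degree_sub_le _ _).trans_lt
        (max_lt (degree_modByMonic_lt _ hf) (degree_modByMonic_lt _ hf))
    have e6 : g - h = 0 := eq_zero_of_dvd_of_degree_lt e3 e5
    exact sub_eq_zero.1 e6
  have hfeval : ∀ a ∈ J, f.eval a = 0 := by
    intro a ha
    rw [hf0, eval_prod]
    apply prod_eq_zero ha
    simp
  have hev2 : ∀ h : F[X], ∀ a ∈ J, (Φ h).eval a = r.eval a * h.eval a := by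
    intro h a ha
    have h1 := modByMonic_add_div (r * h) f
    have h2 := congrArg (fun p : F[X] => p.eval a) h1
    simp only [eval_add, eval_mul, hfeval a ha, zero_mul, add_zero] at h2
    change (f * (h /ₘ f) + (r * h) %ₘ f).eval a = _
    rw [eval_add, eval_mul, hfeval a ha, zero_mul, zero_add, h2]
  have hlamΦ : ∀ h ∈ Mon F n, lamPR χ (PJ J c) 1 (Φ h) =
      lamPR χ (PJ J c) 1 r * lamPR χ (PJ J c) 1 h := by
    intro h hh
    have hΦh := mem_Mon.1 (hΦ h hh)
    rw [mem_Mon] at hh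
    rw [lam_PJ, lam_PJ, lam_PJ, hΦh.2, hh.2, ← hm]
    have e1 : ∏ a ∈ J, (Φ h).eval a ^ c a =
        (∏ a ∈ J, r.eval a ^ c a) * ∏ a ∈ J, h.eval a ^ c a := by
      rw [← prod_mul_distrib]
      apply prod_congr rfl
      intro a ha
      rw [hev2 h a ha, mul_pow]
    have e2 : ((-1 : F)) ^ (m * ∑ a ∈ J, c a) = 1 := by
      obtain ⟨j, hj⟩ := hev
      have : m * ∑ a ∈ J, c a = 2 * (j * ∑ a ∈ J, c a) := by rw [hj]; ring
      rw [this, pow_mul]
      simp
    rw [e1, e2, map_mul, map_one]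
    ring
  have himg : (Mon F n).image Φ = Mon F n := by
    apply eq_of_subset_of_card_le
    · intro g hg
      obtain ⟨h, hh, rfl⟩ := mem_image.1 hg
      exact hΦ h hh
    · rw [card_image_of_injOn hinj]
  have hsum : AL (lamPR χ (PJ J c) 1) n = lamPR χ (PJ J c) 1 r * AL (lamPR χ (PJ J c) 1) n := by
    unfold AL
    conv_lhs => rw [← himg, sum_image hinj]
    rw [sum_congr rfl hlamΦ, mul_sum]
  have h1 : (1 - lamPR χ (PJ J c) 1 r) * AL (lamPR χ (PJ J c) 1) n = 0 := by
    linear_combination hsum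
  rcases mul_eq_zero.1 h1 with h2 | h2
  · exact absurd (sub_eq_zero.1 h2).symm hlam1
  · exact h2

theorem PJ_cop (ℓ : ℕ) (hℓ : ℓ.Prime) (J : Finset F) (c : F → ℕ) {a : F} (ha : a ∈ J)
    (hca : ¬ ℓ ∣ c a) : Cop ℓ (PJ J c * 1 ^ (ℓ - 1)) := by
  rw [one_pow, mul_one]
  unfold Cop
  refine ⟨a, ?_⟩
  have h1 : (PJ J c).rootMultiplicity a = c a := by
    unfold PJ
    rw [← mul_prod_erase J _ ha, rootMultiplicity_mul]
    · rw [rootMultiplicity_X_sub_C_pow]
      have : rootMultiplicity a (∏ x ∈ J.erase a, (X - C x) ^ c x) = 0 := by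
        apply rootMultiplicity_eq_zero
        rw [IsRoot.def, eval_prod, prod_eq_zero_iff]
        rintro ⟨b, hb, hb2⟩
        rw [eval_pow] at hb2
        have h3 : (X - C b).eval a = 0 := by
          by_contra h4
          exact (pow_ne_zero _ h4) hb2
        rw [eval_sub, eval_X, eval_C, sub_eq_zero] at h3
        exact (mem_erase.1 hb).1 h3.symm
      rw [this, add_zero]
    · apply mul_ne_zero
      · exact ((monic_X_sub_C a).pow _).ne_zero
      · exact (monic_prod_of_monic _ _ fun b _ => (monic_X_sub_C b).pow _).ne_zero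
  rw [h1]
  exact ((hℓ.coprime_iff_not_dvd).2 hca).symm

/-- **Weil's bound for a product of powers of linear factors.** The characters have prime order. -/
theorem weil_lin (ℓ : ℕ) (hℓ : ℓ.Prime) (hℓF : ℓ ∣ Fintype.card F - 1) (χ : MulChar F ℂ)
    (hχ1 : χ ≠ 1) (hχ : χ ^ ℓ = 1) (J : Finset F) (c : F → ℕ) (hc : ∀ a ∈ J, 0 < c a)
    (hca : ∃ a ∈ J, ¬ ℓ ∣ c a) :
    ‖∑ x : F, χ (∏ a ∈ J, (x - a) ^ c a)‖ ≤ (J.card : ℕ) * Real.sqrt (Fintype.card F) := by
  classical
  obtain ⟨a₀, ha₀, hca₀⟩ := hca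
  set P := PJ J c with hP'
  have hP : P.Monic := PJ_monic J c
  have hR : (1 : F[X]).Monic := monic_one
  have hcop : Cop ℓ (P * 1 ^ (ℓ - 1)) := PJ_cop ℓ hℓ J c ha₀ hca₀
  obtain ⟨K, hK, hb⟩ := T_bound ℓ hℓ.two_le hℓF χ hχ1 hχ P 1 hP hR hcop
  obtain ⟨r, hr, hev, hr0, hr1⟩ := exists_r ℓ hℓ.two_le hℓF χ hχ1 hχ P 1 hP hR hcop
  set d := J.card with hd
  set l := lamPR χ P 1 with hl
  have hl1 : l 1 = 1 := lamPR_one χ P 1
  have hlm : ∀ g h : F[X], g.Monic → h.Monic → l (g * h) = l g * l h :=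
    fun g h hg hh => lamPR_mul χ P 1 g h hg hh
  have hA : ∀ n, d ≤ n → AL l n = 0 := fun n hn =>
    AL_PJ_zero χ J c hc r hr hev hr0 hr1 n hn
  set a : ℂ[X] := ∑ n ∈ range d, C (AL l n) * X ^ n with ha
  have hd0 : 0 < d := by
    by_contra h0
    have h1 := hA 0 (by omega)
    rw [AL_zero l hl1] at h1
    exact one_ne_zero h1
  have hcoeff : ∀ n, a.coeff n = AL l n := by
    intro n
    rw [ha, finsetSum_coeff]
    simp_rw [coeff_C_mul_X_pow]
    by_cases hn : n < d
    · rw [sum_eq_single n]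
      · simp
      · intro m _ hm
        rw [if_neg (Ne.symm hm)]
      · intro h
        exact absurd (mem_range.2 hn) h
    · rw [hA n (by omega)]
      rw [sum_eq_zero]
      intro m hm
      rw [mem_range] at hm
      rw [if_neg (by omega)]
  have hdeg : a.natDegree ≤ d := by
    rw [natDegree_le_iff_coeff_eq_zero]
    intro n hn
    rw [hcoeff, hA n (by omega)]
  have hq0 : 0 < Real.sqrt (Fintype.card F) := Real.sqrt_pos.2 (by exact_mod_cast Fintype.card_pos)
  have hmain := coeff_one_bound a (by rw [hcoeff, AL_zero l hl1]) (fun m => TL l m)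
    (Real.sqrt (Fintype.card F)) K hq0 hK
    (fun m hm => (hb m hm).1)
    (by
      intro n
      rw [hcoeff]
      have := n_mul_AL l hl1 hlm n
      simp_rw [hcoeff]
      exact this)
    d hdeg
  rw [hcoeff] at hmain
  have h1 := n_mul_AL l hl1 hlm 1
  rw [Icc_self, sum_singleton, Nat.sub_self, AL_zero l hl1] at h1
  have h2 := TL_char (F := F) (E := F) χ P 1
  rw [Module.finrank_self] at h2
  have h3 : AL l 1 = ∑ x : F, χ (∏ a ∈ J, (x - a) ^ c a) := by
    have : AL l 1 = TL l 1 := by simpa using h1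
    rw [this, hl, h2]
    apply sum_congr rfl
    intro x _
    rw [hP']
    unfold PJ
    simp
  rw [h3] at hmain
  exact hmain

end

end Pool.Agent.TH194.SP
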